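import Pool.Agent.Work.MP_b4cb8e_al.Tr.Merge

set_option autoImplicit false

open Pool.Agent.Work.MP_b4cb8e_al

namespace Pool.Agent.Work.MP_b4cb8e_al.Cor.TraceOrNorm

/-- The problem holds when any two noncommuting elements of `N` lie in a division subring `G`
that has an element `z` which is not a sum of additive commutators of `G` (`z = 1` or `G` not
inside `K`), or has a real submultiplicative norm with a nonzero `z` of norm less than one (`z`
central in `D` or `G` not inside `K`). -/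
theorem result (D : Type) [DivisionRing D]
    (K : Subfield D) (hK : K ≠ ⊤) (N : Subgroup Dˣ) (hN : N.IsSubnormal)
    (hrad : ∀ x ∈ N, ∃ m : ℕ, 1 ≤ m ∧ (x : D) ^ m ∈ K)
    (h : ∀ a ∈ N, ∀ b ∈ N, a * b ≠ b * a → ∃ G : Subfield D, (a : D) ∈ G ∧ (b : D) ∈ G ∧
      ((∃ z ∈ G, (z = 1 ∨ ¬ G ≤ K) ∧
        z ∉ AddSubgroup.closure {w : D | ∃ x ∈ G, ∃ y ∈ G, w = x * y - y * x}) ∨
      ∃ (p : RingNorm G) (z : G), z ≠ 0 ∧ p z < 1 ∧
        ((z : D) ∈ Subring.center D ∨ ¬ G ≤ K))) :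
    ∀ x ∈ N, (x : D) ∈ Subring.center D :=
  forall_SN.1 (central_of_trace_or_norm hK hN (forall_SN.2 hrad)
    (forall_SN.2 fun a ha => forall_SN.2 fun b hb e => h a ha b hb fun e' =>
      e (by exact_mod_cast e')))

end Pool.Agent.Work.MP_b4cb8e_al.Cor.TraceOrNorm
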