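import Pool.Agent.Work.MP_b4cb8e_al.Tr.Wedd

set_option autoImplicit false

namespace Pool.Agent.Work.MP_b4cb8e_al

open Polynomial Filter

universe u

variable {D : Type u} [DivisionRing D]

lemma coeff_mem_of_freq (B : Submodule (Subring.center D) D) {f : D[X]}
    (h : ∃ᶠ t in cofinite, ev (D := D) t f ∈ B) (n : ℕ) : f.coeff n ∈ B := by
  by_contra hn0
  obtain ⟨φ, hφ, hB⟩ := Submodule.exists_dual_map_eq_bot_of_notMem hn0 inferInstance
  apply hφ
  let q : (Subring.center D)[X] :=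
    ∑ i ∈ Finset.range (f.natDegree + 1), monomial i (φ (f.coeff i))
  have hq : q = 0 := by
    apply eq_zero_of_infinite_isRoot
    refine (frequently_cofinite_iff_infinite.1 h).mono fun t ht => ?_
    have h1 : φ (ev t f) = 0 := (Submodule.eq_bot_iff _).1 hB _ ⟨_, ht, rfl⟩
    rw [ev_eq, map_sum] at h1
    simp only [Set.mem_ofPred_eq, IsRoot.def, q, eval_finsetSum, eval_monomial]
    rw [← h1]
    exact Finset.sum_congr rfl fun i _ => by rw [map_smul, smul_eq_mul, mul_comm]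
  by_cases hn : n ≤ f.natDegree
  · have := congrArg (fun p => coeff p n) hq
    simp only [q, finsetSum_coeff, coeff_monomial, coeff_zero] at this
    rw [Finset.sum_ite_eq' , if_pos (Finset.mem_range.2 (by omega))] at this
    exact this
  · rw [coeff_eq_zero_of_natDegree_lt (by omega), map_zero]

/-- rational functions with central denominators -/
def PC (φ : Subring.center D → D) : Prop :=
  ∃ (f : D[X]) (g : (Subring.center D)[X]), g.coeff 0 ≠ 0 ∧
    ∀ᶠ t in cofinite, g.eval t • φ t = ev t f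

lemma PC.const (c : D) : PC (fun _ => c) :=
  ⟨C c, 1, by simp, Eventually.of_forall fun t => by simp [ev_C]⟩

lemma PC.mul {φ ψ : Subring.center D → D} (h1 : PC φ) (h2 : PC ψ) : PC (fun t => φ t * ψ t) := by
  obtain ⟨f1, g1, hg1, e1⟩ := h1
  obtain ⟨f2, g2, hg2, e2⟩ := h2
  refine ⟨f1 * f2, g1 * g2, by simp [hg1, hg2], ?_⟩
  filter_upwards [e1, e2] with t ht1 ht2
  rw [map_mul, ← ht1, ← ht2, eval_mul, smul_mul_smul_comm]

lemma PC.lin (x : D) : PC (fun t => 1 + (t : D) * x) :=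
  ⟨1 + X * C x, 1, by simp, Eventually.of_forall fun t => by
    rw [eval_one, one_smul, map_add, map_one, map_mul, ev_C, ev_X]⟩

lemma PC.inv_lin {x : D} {m : ℕ} (hm : 1 ≤ m) (h : x ^ m ∈ Subring.center D) :
    PC (fun t => (1 + (t : D) * x)⁻¹) := by
  refine ⟨∑ i ∈ Finset.range m, (-(X * C x)) ^ i, 1 - (-X) ^ m * C ⟨x ^ m, h⟩, ?_, ?_⟩
  · rw [coeff_zero_eq_eval_zero]
    simp [show m ≠ 0 by omega]
  filter_upwards [lin_ne_zero x] with t ht
  have hcm : Commute (-(t : D)) x := (mem_center.1 (neg_mem t.2) x).symm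
  have e1 := mul_neg_geom_sum (-(t : D) * x) m
  rw [hcm.mul_pow, neg_mul, sub_neg_eq_add] at e1
  apply mul_left_cancel₀ ht
  simp only [map_sum, map_pow, map_neg, map_mul, ev_X, ev_C]
  rw [e1, mul_smul_comm, mul_inv_cancel₀ ht]
  simp [Subring.smul_def]

lemma PC.ds (a : D) {x : D} {m : ℕ} (hm : 1 ≤ m) (h : x ^ m ∈ Subring.center D) (k : ℕ) :
    PC (fun t => ds a (1 + (t : D) * x) k) ∧ PC (fun t => (ds a (1 + (t : D) * x) k)⁻¹) := by
  induction k with
  | zero => exact ⟨PC.lin x, PC.inv_lin hm h⟩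
  | succ k ih =>
    refine ⟨ih.1.mul (((PC.const a).mul ih.2).mul (PC.const a⁻¹)), ?_⟩
    simpa only [Work.MP_b4cb8e_al.ds, mul_inv_rev, inv_inv] using
      ((PC.const a).mul (ih.1.mul (PC.const a⁻¹))).mul ih.2

lemma Rt.eq_zero0 {φ : Subring.center D → D} {a b : D} (h : Rt φ a b)
    (h0 : ∃ᶠ t in cofinite, φ t = 0) : a = 0 := by
  obtain ⟨f, g, hg, e, a1, -⟩ := h
  have hf : f = 0 := eq_zero_of_freq ((h0.and_eventually e).mono fun t ht => by
    rw [← ht.2, ht.1, zero_mul])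
  rw [hf, coeff_zero] at a1
  exact (mul_eq_zero.1 a1).resolve_right hg

lemma PC.jets {φ : Subring.center D → D} (h : PC φ) {a b : D} (hR : Rt φ a b)
    {B : Submodule (Subring.center D) D} (hB : ∃ᶠ t in cofinite, φ t ∈ B) : a ∈ B ∧ b ∈ B := by
  obtain ⟨f, g, hg, e⟩ := h
  have hf := coeff_mem_of_freq B ((hB.and_eventually e).mono fun t ht =>
    ht.2 ▸ B.smul_mem _ ht.1)
  have hc : ∀ (c : Subring.center D) (z : D), z * algebraMap _ D c = c • z :=
    fun c z => mem_center.1 c.2 z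
  have h0 : Rt φ ((g.coeff 0)⁻¹ • f.coeff 0)
      ((g.coeff 0)⁻¹ • (f.coeff 1 - g.coeff 1 • (g.coeff 0)⁻¹ • f.coeff 0)) := by
    refine ⟨f, g.map (algebraMap _ D), by simpa using hg, e.mono fun t ht => ?_, ?_, ?_⟩
    · rw [← ht, ← hc]
      congr 1
      exact (eval₂_map _ _ _).trans (eval₂_at_apply (algebraMap (Subring.center D) D) t)
    · rw [coeff_map, hc, smul_inv_smul₀ hg]
    · rw [coeff_map, coeff_map, hc, hc, smul_inv_smul₀ hg, add_sub_cancel]
  have h1 := hR.sub h0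
  have h2 := hB.mono fun t _ => sub_self (φ t)
  rw [sub_eq_zero.1 (h1.eq_zero0 h2), sub_eq_zero.1 (h1.eq_zero h2)]
  exact ⟨B.smul_mem _ (hf 0),
    B.smul_mem _ (B.sub_mem (hf 1) (B.smul_mem _ (B.smul_mem _ (hf 0))))⟩

lemma dl_sq {a : D} (ha : a ≠ 0) {m : ℕ} (hm : (m : D) ≠ 0) (h : a ^ m ∈ Subring.center D)
    {B : Submodule (Subring.center D) D} (hB : ∀ v ∈ B, cj a v ∈ B)
    {v : D} (hv : dl a (dl a v) ∈ B) : dl a v ∈ B := by
  have e : ∀ j : ℕ, (cj a ^ j) v - v + j • dl a v ∈ B := by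
    intro j
    induction j with
    | zero => simp
    | succ j ih =>
      have h1 := B.add_mem (hB _ ih) (nsmul_mem hv j)
      have h2 : ∀ w, cj a w = w - dl a w := fun w => by rw [dl_apply, cj_apply, sub_sub_cancel]
      rw [map_add, map_sub, map_nsmul, h2 v, h2 (dl a v), ← end_mul_apply, ← pow_succ'] at h1
      have e2 : (cj a ^ (j + 1)) v - v + (j + 1) • dl a v = (cj a ^ (j + 1)) v - (v - dl a v) +
          j • (dl a v - dl a (dl a v)) + j • dl a (dl a v) := by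
        rw [smul_sub, succ_nsmul]
        abel
      rwa [e2]
  have := e m
  rw [cj_pow_apply, ← mem_center.1 h v, mul_assoc, mul_inv_cancel₀ (pow_ne_zero _ ha), mul_one,
    sub_self, zero_add] at this
  have h3 := B.smul_mem ⟨(m : D)⁻¹, center_inv (natCast_mem _ m)⟩ this
  simpa [Subring.smul_def, ← mul_assoc, hm] using h3

lemma dl_of_pow {a : D} (ha : a ≠ 0) {m : ℕ} (hm : (m : D) ≠ 0) (h : a ^ m ∈ Subring.center D)
    {B : Submodule (Subring.center D) D} (hB : ∀ v ∈ B, cj a v ∈ B)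
    (r : ℕ) : ∀ v : D, dl a ((dl a ^ r) v) ∈ B → dl a v ∈ B := by
  induction r with
  | zero => intro v hv; simpa using hv
  | succ r ih =>
    intro v hv
    rw [dl_pow_succ] at hv
    exact ih v (dl_sq ha hm h hB hv)

lemma NC.infinite {N : Subgroup Dˣ} (hN : N.IsSubnormal)
    (hrad : ∀ x ∈ SN N, ∃ m : ℕ, 1 ≤ m ∧ x ^ m ∈ Subring.center D) (hnc : NC N) :
    Infinite (Subring.center D) := by
  rcases finite_or_infinite (Subring.center D) with hF | hF
  · obtain ⟨a, ha, ha'⟩ := hnc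
    exact absurd (HC_of_finite N hN hrad a ha) ha'
  · exact hF

/-- in a counterexample `1` is a sum of additive commutators -/
theorem one_mem_Cm {N : Subgroup Dˣ} (hN : N.IsSubnormal)
    (hrad : ∀ x ∈ SN N, ∃ m : ℕ, 1 ≤ m ∧ x ^ m ∈ Subring.center D) (hnc : NC N) :
    (1 : D) ∈ Cm D := by
  have := hnc.infinite hN hrad
  by_contra h1
  obtain ⟨a, ha, ha'⟩ := hnc
  refine ha' (CC_all N hN a (fun b hb => ?_) ha' a ha)
  obtain ⟨r, hr⟩ := absorb hN
  obtain ⟨m, hm, h⟩ := hrad b hb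
  have ha0 := SN.ne_zero ha
  have h2 : ∃ᶠ t : Subring.center D in cofinite,
      a * ds a (1 + (t : D) * b) r = ds a (1 + (t : D) * b) r * a := by
    by_contra hcon
    refine h1 ((PC.ds a hm h r).1.jets (Rt.ds ha0 b r) (Eventually.frequently ?_)).1
    filter_upwards [not_frequently.1 hcon, lin_ne_zero b] with t ht ht'
    exact mem_Cm hN hrad (hr a ha _ ht') fun hc => ht (mem_center.1 hc a)
  obtain ⟨n, hn, hn'⟩ := rad_coprime hN hrad ha
  exact ((dl_eq_zero_iff ha0 b).1 (dl_of_pow (B := ⊥) ha0 hn hn' (by simp) r b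
    ((dl_eq_zero_iff ha0 _).2 ((Rt.ds ha0 b r).comm h2)))).symm

/-- radical elements normalising `N` lie in the algebra spanned by `N` -/
lemma norm_mem {N : Subgroup Dˣ} (hN : N.IsSubnormal)
    (hrad : ∀ x ∈ SN N, ∃ m : ℕ, 1 ≤ m ∧ x ^ m ∈ Subring.center D) (hnc : NC N) {x : D}
    (hx0 : x ≠ 0) {m : ℕ} (hm : 1 ≤ m) (h : x ^ m ∈ Subring.center D)
    (hx : ∀ y ∈ SN N, x * y * x⁻¹ ∈ SN N) : x ∈ Algebra.adjoin (Subring.center D) (SN N) := by
  have := hnc.infinite hN hrad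
  set B := Algebra.adjoin (Subring.center D) (SN N)
  have hB : ∀ y ∈ SN N, y ∈ B := fun y hy => Algebra.subset_adjoin hy
  by_cases hc : x ∈ Subring.center D
  · exact B.algebraMap_mem ⟨x, hc⟩
  obtain ⟨a, ha, hax⟩ : ∃ a ∈ SN N, a * x ≠ x * a := by
    by_contra hcon
    push Not at hcon
    obtain ⟨y, hy, hy'⟩ := hnc
    exact hy' (CC_all N hN x hcon hc y hy)
  have ha0 := SN.ne_zero ha
  obtain ⟨r, hr⟩ := absorb hN
  obtain ⟨n, hn, hn'⟩ := rad_coprime hN hrad ha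
  have hcj : ∀ v ∈ B.toSubmodule, cj a v ∈ B.toSubmodule := fun v hv =>
    B.mul_mem (B.mul_mem (hB a ha) hv) (hB _ (SN.inv ha))
  have h1 := ((PC.ds a hm h r).1.jets (B := B.toSubmodule) (Rt.ds ha0 x r) (Eventually.frequently
    ((lin_ne_zero x).mono fun t ht => hB _ (hr a ha _ ht)))).2
  have h2 : dl a x ∈ B := dl_of_pow ha0 hn hn' hcj r x (sub_mem h1 (hcj _ h1))
  have hν : a * (x * a⁻¹ * x⁻¹) ∈ SN N := SN.mul ha (hx _ (SN.inv ha))
  obtain ⟨k, hk, hk'⟩ := hrad _ hν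
  have h3 : IsIntegral (Subring.center D) (1 - a * (x * a⁻¹ * x⁻¹)) :=
    IsIntegral.of_mem_of_fg _ (integral_of_pow hk hk').fg_adjoin_singleton _
      (sub_mem (one_mem _) (Algebra.subset_adjoin rfl))
  have h4 := B.mul_mem (h3.inv_mem (sub_mem (one_mem _) (hB _ hν))) h2
  have e : dl a x = (1 - a * (x * a⁻¹ * x⁻¹)) * x := by
    rw [dl_apply, sub_mul]
    simp [mul_assoc, hx0]
  have h5 : 1 - a * (x * a⁻¹ * x⁻¹) ≠ 0 := fun h0 =>
    hax ((dl_eq_zero_iff ha0 x).1 (by rw [e, h0, zero_mul]))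
  rwa [e, ← mul_assoc, inv_mul_cancel₀ h5, one_mul] at h4

lemma span_inf {M : Subgroup Dˣ} (hM : M.IsSubnormal)
    (hrad : ∀ x ∈ SN M, ∃ m : ℕ, 1 ≤ m ∧ x ^ m ∈ Subring.center D) {H : Subgroup Dˣ}
    (hH : H.IsSubnormal) (hnc : NC (H ⊓ M)) :
    SN M ⊆ Algebra.adjoin (Subring.center D) (SN (H ⊓ M)) := by
  induction hH with
  | top => simp
  | step H K hle hK hn ih =>
    refine (ih (hnc.mono (inf_le_inf_right M hle))).trans (Algebra.adjoin_le fun x hx => ?_)
    rw [SN.inf] at hx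
    obtain ⟨m, hm, h⟩ := hrad x hx.2
    refine norm_mem ((Subgroup.IsSubnormal.step _ _ hle hK hn).inf hM)
      (fun y hy => hrad y (SN.inf.1 hy).2) hnc (SN.ne_zero hx.1) hm h fun y hy => ?_
    rw [SN.inf] at hy ⊢
    exact ⟨SN.conj hle hn hy.1 hx.1, SN.mul (SN.mul hx.2 hy.2) (SN.inv hx.2)⟩

/-- a counterexample spans the division ring over its centre -/
theorem span_top {N : Subgroup Dˣ} (hN : N.IsSubnormal)
    (hrad : ∀ x ∈ SN N, ∃ m : ℕ, 1 ≤ m ∧ x ^ m ∈ Subring.center D) (hnc : NC N) :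
    Submodule.span (Subring.center D) (SN N) = ⊤ := by
  set B := Algebra.adjoin (Subring.center D) (SN N) with hB
  have h1 : ∀ g, g ≠ 0 → ∀ y ∈ SN N, g * y * g⁻¹ ∈ B := by
    intro g hg y hy
    have hg' := inv_ne_zero hg
    have hM := pull_subnormal (cjr hg') hN
    refine Algebra.adjoin_mono (fun z hz => (SN.inf.1 hz).1) (span_inf hM (fun x hx => ?_) hN
      (CC_all.inf hN hM hnc (hnc.conj hg')) ((mem_pull _ _).2 ?_))
    · obtain ⟨m, hm, h⟩ := hrad _ ((mem_pull _ _).1 hx)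
      refine ⟨m, hm, mem_center.2 fun w => (cjr hg').injective ?_⟩
      simpa using mem_center.1 h (cjr hg' w)
    · simpa [cjr_apply, mul_assoc, hg] using hy
  have h2 : ∀ g, g ≠ 0 → ∀ b ∈ B.toSubring, g * b * g⁻¹ ∈ B.toSubring := by
    intro g hg b hb
    rw [← cjr_apply hg]
    induction hb using Algebra.adjoin_induction with
    | mem y hy => exact h1 g hg y hy
    | algebraMap c =>
      have : cjr hg (algebraMap (Subring.center D) D c) = algebraMap (Subring.center D) D c := by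
        rw [cjr_apply, ← Algebra.commutes, mul_assoc]
        simp [hg]
      rw [this]
      exact B.algebraMap_mem c
    | add u w _ _ hu hw => rw [map_add]; exact add_mem hu hw
    | mul u w _ _ hu hw => rw [map_mul]; exact mul_mem hu hw
  obtain ⟨a, ha, ha'⟩ := hnc
  have h3 : B.toSubring = ⊤ := by
    by_contra htop
    refine ha' (QQ_of_invariant h2 htop (Algebra.subset_adjoin ha) ha' (cent Set.univ)
      (fun h => ha' (mem_cent_univ.1 (h ▸ Subfield.mem_top a))) N hN (rad_K hrad) a ha)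
  rw [← Algebra.adjoin_eq_span_of_subset, eq_top_iff]
  · exact fun z _ => show z ∈ B.toSubring from h3 ▸ Subring.mem_top z
  · intro z hz
    refine Submodule.subset_span ?_
    induction hz using Submonoid.closure_induction with
    | mem y hy => exact hy
    | one => exact SN.one N
    | mul u w _ _ hu hw => exact SN.mul hu hw

theorem HC_of_ne_top (h : Cm D ≠ ⊤) : HC D := by
  intro N hN hrad a ha
  by_contra ha'
  refine h (eq_top_iff.2 ?_)
  rw [← span_top hN hrad ⟨a, ha, ha'⟩, Submodule.span_le]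
  intro x hx
  by_cases hc : x ∈ Subring.center D
  · simpa [Subring.smul_def] using
      (Cm D).smul_mem ⟨x, hc⟩ (one_mem_Cm hN hrad ⟨a, ha, ha'⟩)
  · exact mem_Cm hN hrad hx hc

lemma Cm_map {E : Type u} [DivisionRing E] (f : E →+* D) {z : E} (hz : z ∈ Cm E) :
    f z ∈ AddSubgroup.closure {z : D | ∃ x ∈ f.range, ∃ y ∈ f.range, z = x * y - y * x} := by
  induction hz using AddSubgroup.closure_induction with
  | mem z hz =>
    obtain ⟨x, y, rfl⟩ := hz
    exact AddSubgroup.subset_closure ⟨_, ⟨x, rfl⟩, _, ⟨y, rfl⟩, by simp⟩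
  | zero => simp
  | add u w _ _ hu hw => rw [map_add]; exact add_mem hu hw
  | neg u _ hu => rw [map_neg]; exact neg_mem hu

/-- the problem for division rings with an element that is not a sum of commutators -/
theorem QQ_of_ne_top {z : D} (h : z ∉ Cm D) : QQ D := by
  intro K hK N hN hrad
  by_contra hcon
  push Not at hcon
  obtain ⟨E, -, hT, N', -, h2, ⟨x, hx, hx'⟩, h4⟩ := reduce hK hN hcon hrad {z}
  refine hx' (HC_of_ne_top (fun h5 => h ?_) N' h2 h4 x hx)
  refine AddSubgroup.closure_mono ?_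
    (Cm_map E.subtype (z := ⟨z, hT z (by simp)⟩) (h5 ▸ Submodule.mem_top))
  rintro _ ⟨x, -, y, -, rfl⟩
  exact ⟨x, y, rfl⟩

/-- the local form of the commutator criterion -/
theorem central_of_trace {K : Subfield D} (hK : K ≠ ⊤) {N : Subgroup Dˣ} (hN : N.IsSubnormal)
    (hrad : ∀ x ∈ SN N, ∃ m : ℕ, 1 ≤ m ∧ x ^ m ∈ K)
    (h : ∀ a ∈ SN N, ∀ b ∈ SN N, ∃ G : Subfield D, a ∈ G ∧ b ∈ G ∧ ∃ z ∈ G, (z = 1 ∨ ¬ G ≤ K) ∧
      z ∉ AddSubgroup.closure {w : D | ∃ x ∈ G, ∃ y ∈ G, w = x * y - y * x}) :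
    ∀ x ∈ SN N, x ∈ Subring.center D := by
  by_contra hcon
  push Not at hcon
  obtain ⟨E, -, -, N', h1, h2, ⟨a, ha, ha'⟩, h4⟩ := reduce hK hN hcon hrad ∅
  refine ha' (CC_all N' h2 a (fun b hb => ?_) ha' a ha)
  obtain ⟨G, haG, hbG, z, hz, rfl | hGK, hz'⟩ := h _ (h1 a ha) _ (h1 b hb)
  · let G' : Subfield E := G.comap E.subtype
    refine (HC_of_ne_top (D := G') fun h5 => hz' ?_).pull G'.subtype h2 (fun x hx => by
      obtain ⟨m, hm, e⟩ := h4 _ hx
      exact ⟨m, hm, fun y => mem_center.1 e _⟩) ⟨a, haG⟩ ⟨b, hbG⟩ ha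
    refine AddSubgroup.closure_mono ?_
      (Cm_map (E.subtype.comp G'.subtype) (z := 1) (h5 ▸ Submodule.mem_top))
    rintro _ ⟨_, ⟨x, rfl⟩, _, ⟨y, rfl⟩, rfl⟩
    exact ⟨_, x.2, _, y.2, rfl⟩
  · obtain ⟨e, he, he'⟩ := Set.not_subset.1 hGK
    refine Subtype.ext ((QQ_of_ne_top (D := G) (z := ⟨z, hz⟩) fun h5 => hz' ?_).pull G.subtype K hN
      ⟨e, he⟩ he' hrad ⟨a, haG⟩ ⟨b, hbG⟩ (h1 a ha))
    refine AddSubgroup.closure_mono ?_ (Cm_map G.subtype h5)
    rintro _ ⟨_, ⟨x, rfl⟩, _, ⟨y, rfl⟩, rfl⟩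
    exact ⟨_, x.2, _, y.2, rfl⟩

end Pool.Agent.Work.MP_b4cb8e_al
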