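import Pool.Agent.Work.MP_b4cb8e_al.Tr.Norm
import Pool.Agent.Work.MP_b4cb8e_al.Tr.Span

set_option autoImplicit false

namespace Pool.Agent.Work.MP_b4cb8e_al

universe u

variable {D : Type u} [DivisionRing D]

/-- the local form of the commutator and norm criteria together -/
theorem central_of_trace_or_norm {K : Subfield D} (hK : K ≠ ⊤) {N : Subgroup Dˣ}
    (hN : N.IsSubnormal) (hrad : ∀ x ∈ SN N, ∃ m : ℕ, 1 ≤ m ∧ x ^ m ∈ K)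
    (h : ∀ a ∈ SN N, ∀ b ∈ SN N, a * b ≠ b * a → ∃ G : Subfield D, a ∈ G ∧ b ∈ G ∧
      ((∃ z ∈ G, (z = 1 ∨ ¬ G ≤ K) ∧
        z ∉ AddSubgroup.closure {w : D | ∃ x ∈ G, ∃ y ∈ G, w = x * y - y * x}) ∨
      ∃ (q : RingNorm G) (z : G), z ≠ 0 ∧ q z < 1 ∧ ((z : D) ∈ Subring.center D ∨ ¬ G ≤ K))) :
    ∀ x ∈ SN N, x ∈ Subring.center D := by
  by_contra hcon
  push Not at hcon
  obtain ⟨E, hZ, -, N', h1, h2, ⟨a, ha, ha'⟩, h4⟩ := reduce hK hN hcon hrad ∅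
  refine ha' (CC_all N' h2 a (fun b hb => ?_) ha' a ha)
  by_contra hab
  obtain ⟨G, haG, hbG, ⟨z, hz, rfl | hGK, hz'⟩ | ⟨q, z, hz, hz1, hF | hGK⟩⟩ :=
    h _ (h1 a ha) _ (h1 b hb) fun e => hab (Subtype.ext e.symm)
  · let G' : Subfield E := G.comap E.subtype
    refine hab ((HC_of_ne_top (D := G') fun h5 => hz' ?_).pull G'.subtype h2 (fun x hx => by
      obtain ⟨m, hm, e⟩ := h4 _ hx
      exact ⟨m, hm, fun y => mem_center.1 e _⟩) ⟨a, haG⟩ ⟨b, hbG⟩ ha)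
    refine AddSubgroup.closure_mono ?_
      (Cm_map (E.subtype.comp G'.subtype) (z := 1) (h5 ▸ Submodule.mem_top))
    rintro _ ⟨_, ⟨x, rfl⟩, _, ⟨y, rfl⟩, rfl⟩
    exact ⟨_, x.2, _, y.2, rfl⟩
  · obtain ⟨e, he, he'⟩ := Set.not_subset.1 hGK
    refine hab (Subtype.ext ((QQ_of_ne_top (D := G) (z := ⟨z, hz⟩) fun h5 => hz' ?_).pull
      G.subtype K hN ⟨e, he⟩ he' hrad ⟨a, haG⟩ ⟨b, hbG⟩ (h1 a ha)))
    refine AddSubgroup.closure_mono ?_ (Cm_map G.subtype h5)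
    rintro _ ⟨_, ⟨x, rfl⟩, _, ⟨y, rfl⟩, rfl⟩
    exact ⟨_, x.2, _, y.2, rfl⟩
  · let G' : Subfield E := G.comap E.subtype
    exact hab ((HC_of_norm (rn_comap q ((E.subtype.comp G'.subtype).codRestrict G fun x => x.2))
      (z := ⟨⟨z, hZ _ hF⟩, z.2⟩)
      (fun e => hz (Subtype.ext (congrArg (fun w : G' => ((w : E) : D)) e)))
      hz1).pull G'.subtype h2 (fun x hx => by
        obtain ⟨m, hm, e⟩ := h4 _ hx
        exact ⟨m, hm, fun y => mem_center.1 e _⟩) ⟨a, haG⟩ ⟨b, hbG⟩ ha)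
  · obtain ⟨e, he, he'⟩ := Set.not_subset.1 hGK
    exact hab (Subtype.ext ((QQ_of_norm q hz hz1).pull G.subtype K hN ⟨e, he⟩ he' hrad
      ⟨a, haG⟩ ⟨b, hbG⟩ (h1 a ha)))

end Pool.Agent.Work.MP_b4cb8e_al
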