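import Pool.Agent.Work.MP_b4cb8e_al.Tr.Wedd

set_option autoImplicit false

namespace Pool.Agent.Work.MP_b4cb8e_al

open Polynomial Filter Topology

universe u

variable {D : Type u} [DivisionRing D]

lemma LL_add (l : List (D × D)) (x y : D) : LL l (x + y) = LL l x + LL l y := by
  induction l with
  | nil => simp [LL_nil]
  | cons q l ih => rw [LL_cons, LL_cons, LL_cons, ih]; noncomm_ring

lemma LL_smul (l : List (D × D)) (c : Subring.center D) (x : D) : LL l (c • x) = c • LL l x := by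
  induction l with
  | nil => simp [LL_nil]
  | cons q l ih => rw [LL_cons, LL_cons, ih, smul_add, mul_smul_comm, smul_mul_assoc]

lemma GL'.span {L : D → D} (h : GL' L) {s : Set D} (hs : ∀ v ∈ s, L v = 0) {v : D}
    (hv : v ∈ Submodule.span (Subring.center D) s) : L v = 0 := by
  obtain ⟨l, hl⟩ := h
  simp only [hl] at hs ⊢
  induction hv using Submodule.span_induction with
  | mem x hx => exact hs x hx
  | zero => simpa using LL_smul l 0 0
  | add x y _ _ hx hy => rw [LL_add, hx, hy, add_zero]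
  | smul c x _ hx => rw [LL_smul, hx, smul_zero]

/-- density of two sided multiplications -/
lemma density (s : Finset D) : ∀ w : D, w ∉ Submodule.span (Subring.center D) (s : Set D) →
    ∃ L : D → D, GL' L ∧ (∀ v ∈ s, L v = 0) ∧ L w = 1 := by
  classical
  induction s using Finset.induction_on with
  | empty =>
    intro w hw
    have hw0 : w ≠ 0 := by
      rintro rfl
      exact hw (zero_mem _)
    exact ⟨_, GL'.id.mul w⁻¹ 1, by simp, by simp [hw0]⟩
  | insert v s _ ih =>
    intro w hw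
    have hle : Submodule.span (Subring.center D) (s : Set D) ≤
        Submodule.span (Subring.center D) (insert v s : Finset D) :=
      Submodule.span_mono (by simp)
    by_cases hv : v ∈ Submodule.span (Subring.center D) (s : Set D)
    · obtain ⟨L, h1, h2, h3⟩ := ih w fun h => hw (hle h)
      refine ⟨L, h1, fun x hx => ?_, h3⟩
      rcases Finset.mem_insert.1 hx with rfl | hx
      · exact h1.span h2 hv
      · exact h2 x hx
    obtain ⟨L1, g1, g2, g3⟩ := ih v hv
    obtain ⟨L, h1, h2, h3, h4⟩ : ∃ L : D → D, GL' L ∧ (∀ x ∈ s, L x = 0) ∧ L v = 0 ∧ L w ≠ 0 := by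
      by_contra hcon
      push Not at hcon
      have hc : L1 w ∈ Subring.center D := mem_center.2 fun d => by
        have := hcon _ ((g1.mul d 1).sub (g1.mul 1 d)) (fun x hx => by simp [g2 x hx])
          (by simp [g3])
        simpa [sub_eq_zero] using this
      obtain ⟨L, h1, h2, h3⟩ := ih (w + (-⟨_, hc⟩ : Subring.center D) • v) fun h => hw (by
        have := sub_mem (hle h) (Submodule.smul_mem _ (-⟨_, hc⟩ : Subring.center D)
          (Submodule.subset_span (Finset.mem_insert_self v s)))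
        rwa [add_sub_cancel_right] at this)
      have h5 := hcon _ (h1.sub (g1.mul (L v) 1)) (fun x hx => by simp [g2 x hx, h2 x hx])
        (by simp [g3])
      obtain ⟨l, hl⟩ := h1
      rw [hl, LL_add, LL_smul, ← hl, ← hl, Subring.smul_def, smul_eq_mul] at h3
      rw [mul_one, mem_center.1 hc, sub_eq_zero] at h5
      simp [h5] at h3
    refine ⟨_, h1.mul (L w)⁻¹ 1, fun x hx => ?_, by simp [h4]⟩
    rcases Finset.mem_insert.1 hx with rfl | hx
    · simp [h3]
    · simp [h2 x hx]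

variable (p : RingNorm D)

lemma rn_one : 1 ≤ p 1 := by
  have h1 := map_mul_le_mul p 1 1
  rw [mul_one] at h1
  have h2 := map_pos_of_ne_zero p (one_ne_zero (α := D))
  nlinarith

lemma rn_mul {x y : D} {α β : ℝ} (hx : p x ≤ α) (hy : p y ≤ β) : p (x * y) ≤ α * β :=
  (map_mul_le_mul p x y).trans
    (mul_le_mul hx hy (apply_nonneg p y) ((apply_nonneg p x).trans hx))

lemma rn_pow (x : D) (k : ℕ) : p (x ^ k) ≤ p 1 * p x ^ k := by
  induction k with
  | zero => simp
  | succ k ih => rw [pow_succ, pow_succ, ← mul_assoc]; exact rn_mul p ih le_rfl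

lemma rn_sum {ι : Type*} (s : Finset ι) (f : ι → D) : p (∑ i ∈ s, f i) ≤ ∑ i ∈ s, p (f i) :=
  Finset.le_sum_of_subadditive p (map_zero p).le (map_add_le_add p) s f

lemma coeff_bound {a : D} (ha : a ≠ 0) {m : ℕ}
    (hm : (minpoly (Subring.center D) a).natDegree = m) {j : ℕ} (hj : j < m) :
    ∃ C : ℝ, 0 ≤ C ∧ ∀ P : (Subring.center D)[X], P.natDegree < m → ∀ B : ℝ, 0 ≤ B →
      (∀ y, p (aeval (adl a) P y) ≤ B * p y) → p (P.coeff j) ≤ C * B := by
  classical
  subst hm
  obtain ⟨L, ⟨l, hl⟩, h2, h3⟩ := density (((Finset.range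
    (minpoly (Subring.center D) a).natDegree).erase j).image (a ^ ·)) (a ^ j) (by
      have := linearIndependent_iff_notMem_span.1
        (linearIndependent_pow (K := Subring.center D) a) ⟨j, hj⟩
      refine fun h => this (Submodule.span_mono ?_ h)
      intro x hx
      obtain ⟨i, hi, rfl⟩ := Finset.mem_image.1 hx
      obtain ⟨h1, h2⟩ := Finset.mem_erase.1 hi
      exact ⟨⟨i, Finset.mem_range.1 h2⟩, ⟨trivial, fun h => h1 (congrArg Fin.val h)⟩, rfl⟩)
  have h4 : ∀ P : (Subring.center D)[X], P.natDegree < (minpoly (Subring.center D) a).natDegree →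
      (l.map fun q => q.1 * aeval (adl a) P q.2).sum = ∑ i ∈ Finset.range
        (minpoly (Subring.center D) a).natDegree, P.coeff i • (LL l (a ^ i) * (a ^ i)⁻¹) := by
    intro P hP
    rw [aeval_eq_sum_range' hP]
    clear hl
    induction l with
    | nil => simp [LL_nil]
    | cons q l ih =>
      rw [List.map_cons, List.sum_cons, ih]
      simp [LL_cons, add_mul, Finset.sum_add_distrib, Finset.mul_sum, adl_pow, mul_assoc]
  refine ⟨(l.map fun q => p q.1 * p q.2).sum * p (a ^ j), mul_nonneg (List.sum_nonneg ?_)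
    (apply_nonneg p _), fun P hP B hB h => ?_⟩
  · intro x hx
    obtain ⟨q, -, rfl⟩ := List.mem_map.1 hx
    exact mul_nonneg (apply_nonneg p _) (apply_nonneg p _)
  have h5 := h4 P hP
  rw [Finset.sum_eq_single_of_mem j (Finset.mem_range.2 hj) fun i hi hij => by
    rw [← hl, h2 _ (Finset.mem_image_of_mem _ (Finset.mem_erase.2 ⟨hij, hi⟩)), zero_mul,
      smul_zero], ← hl, h3, one_mul] at h5
  have h6 : (P.coeff j : D) = (l.map fun q => q.1 * aeval (adl a) P q.2).sum * a ^ j := by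
    rw [h5, smul_mul_assoc, inv_mul_cancel₀ (pow_ne_zero _ ha), Subring.smul_def, smul_eq_mul,
      mul_one]
  rw [h6, mul_right_comm]
  refine rn_mul p ?_ le_rfl
  clear h4 h5 h6 hl
  induction l with
  | nil => simp
  | cons q l ih =>
    rw [List.map_cons, List.sum_cons, List.map_cons, List.sum_cons, add_mul]
    refine (map_add_le_add p _ _).trans (add_le_add ?_ ih)
    refine (rn_mul p le_rfl (h _)).trans_eq (by ring)

/-- bounds tested against functionals -/
def Bd {Ω : Type u} [Field Ω] [Algebra (Subring.center D) Ω] (ζ z : Ω) (B : ℝ) : Prop :=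
  ∀ f : Ω →ₗ[Subring.center D] Subring.center D, ∀ M : ℝ, (∀ e : ℕ, p (f (ζ ^ e)) ≤ M) →
    p (f z) ≤ M * B

lemma Bd.mul {Ω : Type u} [Field Ω] [Algebra (Subring.center D) Ω] {ζ z w : Ω} {B B' : ℝ}
    (h : Bd p ζ z B) (h' : Bd p ζ w B') : Bd p ζ (z * w) (B' * B) := by
  intro f M hM
  rw [← mul_assoc]
  refine h (f.comp (LinearMap.mulRight _ w)) _ fun e => ?_
  refine h' (f.comp (LinearMap.mulLeft _ (ζ ^ e))) _ fun e' => ?_
  simpa [← pow_add] using hM (e + e')

lemma small_prime {a : D} {m : ℕ} (hm : 2 ≤ m) (hm0 : (m : D) ≠ 0) (ha : a ≠ 0)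
    (h : a ^ m ∈ Subring.center D) (hd : (minpoly (Subring.center D) a).natDegree = m) {η : ℝ}
    (h0 : 0 ≤ η) (h1 : η ≤ 1) (hη : ∀ y, p (y - a * y * a⁻¹) ≤ η * p y) :
    ∃ l : ℕ, l.Prime ∧ (l : D) ≠ 0 ∧ ∃ C : ℝ, ∀ k : ℕ, p ((l : D) ^ k) ≤ C * η ^ k := by
  obtain ⟨l, hl, c, rfl⟩ := Nat.exists_prime_and_dvd (show m ≠ 1 by omega)
  have hl0 : (l : D) ≠ 0 := left_ne_zero_of_mul (Nat.cast_mul (α := D) l c ▸ hm0)
  refine ⟨l, hl, hl0, ?_⟩
  have : NeZero (l : Subring.center D) := ⟨fun h => hl0 (by simpa using congrArg Subtype.val h)⟩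
  obtain ⟨ζ, hζ⟩ :=
    HasEnoughRootsOfUnity.exists_primitiveRoot (AlgebraicClosure (Subring.center D)) l
  choose C hC0 hC using fun j : Fin (l * c) => coeff_bound p ha hd j.2
  have hmon : (X ^ (l * c) - 1 : (Subring.center D)[X]).Monic :=
    monic_X_pow_sub_C 1 (by omega)
  have hb : ∀ i k : ℕ, Bd p ζ ((1 - ζ ^ i) ^ k) ((∑ j, C j) * η ^ k) := by
    intro i k f M hM
    have hdeg : ((1 - X) ^ k %ₘ (X ^ (l * c) - 1) : (Subring.center D)[X]).natDegree < l * c := by
      have := natDegree_modByMonic_lt ((1 - X) ^ k) hmon (fun h => by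
        have := congrArg natDegree h
        rw [← C_1, natDegree_X_pow_sub_C, natDegree_C] at this
        omega)
      rwa [← C_1, natDegree_X_pow_sub_C] at this
    have h2 : ∀ y, p (aeval (adl a)
        ((1 - X) ^ k %ₘ (X ^ (l * c) - 1) : (Subring.center D)[X]) y) ≤ η ^ k * p y := by
      rw [aeval_modByMonic_eq_self_of_root]
      · rw [map_pow, map_sub, map_one, aeval_X]
        clear hdeg
        induction k with
        | zero => simp
        | succ k ih =>
          intro y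
          rw [pow_succ', Module.End.mul_apply, pow_succ', mul_assoc]
          exact (hη _).trans (mul_le_mul_of_nonneg_left (ih y) h0)
      · ext y
        rw [map_sub, map_one, map_pow, aeval_X, LinearMap.sub_apply, adl_pow, ← mem_center.1 h y]
        simp [ha]
    have h3 : (1 - ζ ^ i) ^ k =
        aeval (ζ ^ i) ((1 - X) ^ k %ₘ (X ^ (l * c) - 1) : (Subring.center D)[X]) := by
      rw [aeval_modByMonic_eq_self_of_root]
      · simp
      · rw [map_sub, map_one, map_pow, aeval_X, ← pow_mul, mul_comm i, mul_assoc, pow_mul,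
          hζ.pow_eq_one, one_pow, sub_self]
    rw [h3, aeval_eq_sum_range' hdeg, map_sum, AddSubmonoidClass.coe_finsetSum, Finset.sum_range,
      Finset.sum_mul, Finset.mul_sum]
    refine (rn_sum p _ _).trans (Finset.sum_le_sum fun j _ => ?_)
    rw [map_smul, smul_eq_mul, ← pow_mul, mul_comm M]
    exact rn_mul p (hC j _ hdeg _ (pow_nonneg h0 k) h2) (hM _)
  have hp : ∀ n k : ℕ, Bd p ζ ((∏ i ∈ Finset.range n, (1 - ζ ^ (i + 1))) ^ k)
      (((∑ j, C j) * η ^ k) ^ n) := by
    intro n k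
    induction n with
    | zero => intro f M hM; simpa using hM 0
    | succ n ih =>
      rw [Finset.prod_range_succ, mul_pow, pow_succ' (_ * η ^ k)]
      exact Bd.mul p ih (hb (n + 1) k)
  obtain ⟨n, rfl⟩ := Nat.exists_eq_add_of_le' hl.two_le
  obtain ⟨f, hf⟩ := LinearMap.exists_leftInverse_of_injective
    (Algebra.linearMap (Subring.center D) (AlgebraicClosure (Subring.center D)))
    (LinearMap.ker_eq_bot.2
      (algebraMap (Subring.center D) (AlgebraicClosure (Subring.center D))).injective)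
  have hM : ∀ e : ℕ, p (f (ζ ^ e)) ≤ ∑ i ∈ Finset.range (n + 2), p (f (ζ ^ i)) := fun e => by
    rw [pow_eq_pow_mod e hζ.pow_eq_one]
    exact Finset.single_le_sum (f := fun i => p (f (ζ ^ i))) (fun _ _ => apply_nonneg p _)
      (Finset.mem_range.2 (Nat.mod_lt _ (by omega)))
  refine ⟨(∑ i ∈ Finset.range (n + 2), p (f (ζ ^ i))) * (∑ j, C j) ^ (n + 1), fun k => ?_⟩
  have h4 := hp (n + 1) k f _ hM
  rw [hζ.prod_one_sub_pow_eq_order] at h4
  have h5 : f (((n + 1 : ℕ) + 1) ^ k) = ((n + 2 : ℕ) : Subring.center D) ^ k := by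
    have := LinearMap.congr_fun hf (((n + 2 : ℕ) : Subring.center D) ^ k)
    rw [LinearMap.comp_apply, Algebra.linearMap_apply, map_pow, map_natCast] at this
    rw [← LinearMap.id_apply (R := Subring.center D) (((n + 2 : ℕ) : Subring.center D) ^ k),
      ← this, Nat.cast_succ (n + 1)]
  rw [h5, SubmonoidClass.coe_pow, SubringClass.coe_natCast] at h4
  refine h4.trans ?_
  rw [mul_assoc, mul_pow]
  refine mul_le_mul_of_nonneg_left (mul_le_mul_of_nonneg_left ?_
    (pow_nonneg (Finset.sum_nonneg fun j _ => hC0 j) _)) ((apply_nonneg p _).trans (hM 0))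
  exact pow_le_of_le_one (pow_nonneg h0 k) (pow_le_one₀ h0 h1) (by omega)

lemma rn_nil {C η : ℝ} (h0 : 0 ≤ η) (h1 : η < 1) (h : ∀ k : ℕ, p 1 ≤ C * η ^ k) : False := by
  have h2 := (tendsto_pow_atTop_nhds_zero_of_lt_one h0 h1).const_mul C
  have := ge_of_tendsto' h2 h
  linarith [rn_one p]

lemma rn_nat (n : ℕ) : p n ≤ n * p 1 := by
  simpa using rn_sum p (Finset.range n) fun _ => 1

lemma no_small_prime : ∃ ε : ℝ, 0 < ε ∧ ε ≤ 1 ∧ ∀ η : ℝ, 0 ≤ η → η < ε → ∀ l : ℕ, l.Prime →
    (l : D) ≠ 0 → ∀ C : ℝ, ¬ ∀ k : ℕ, p ((l : D) ^ k) ≤ C * η ^ k := by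
  by_cases h : ∃ η : ℝ, 0 ≤ η ∧ η < 1 ∧ ∃ l : ℕ, l.Prime ∧ (l : D) ≠ 0 ∧
      ∃ C : ℝ, ∀ k : ℕ, p ((l : D) ^ k) ≤ C * η ^ k
  swap
  · exact ⟨1, one_pos, le_rfl, fun η h0 h1 l hl hl0 C hC => h ⟨η, h0, h1, l, hl, hl0, C, hC⟩⟩
  obtain ⟨θ, g0, g1, q, hq, hq0, C0, hC0⟩ := h
  have hq1 := apply_nonneg p (q : D)⁻¹
  have hε : 1 / (p (q : D)⁻¹ + 1) ≤ 1 := by
    rw [div_le_one (by linarith)]
    linarith
  refine ⟨1 / (p (q : D)⁻¹ + 1), by positivity, hε, fun η h0 h1 l hl hl0 C hC => ?_⟩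
  by_cases hlq : l = q
  · subst hlq
    rw [lt_div_iff₀ (by linarith)] at h1
    refine rn_nil p (C := p 1 * C) (η := p (l : D)⁻¹ * η) (by positivity) (by linarith) fun k => ?_
    have := rn_mul p (rn_pow p (l : D)⁻¹ k) (hC k)
    rw [inv_pow, inv_mul_cancel₀ (pow_ne_zero _ hl0)] at this
    exact this.trans_eq (by ring)
  obtain ⟨k0, hk0, hk1⟩ := (((tendsto_pow_atTop_nhds_zero_of_lt_one g0 g1).const_mul C0).eventually
    (gt_mem_nhds (show C0 * 0 < 1 / 2 by norm_num))).and (eventually_ge_atTop 1) |>.exists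
  have hQ : 1 < q ^ k0 := Nat.one_lt_pow (by omega) hq.one_lt
  have hQ1 : p (q ^ k0 : ℕ) ≤ 1 / 2 := by rw [Nat.cast_pow]; exact (hC0 k0).trans hk0.le
  generalize q ^ k0 = Q at hQ hQ1
  have hN : ∀ n : ℕ, p n ≤ 2 * Q * p 1 := by
    intro n
    induction n using Nat.strong_induction_on with
    | _ n ih =>
      have h2 := rn_one p
      rcases Nat.eq_zero_or_pos n with rfl | hn
      · rw [Nat.cast_zero, map_zero]
        positivity
      have h3 := rn_mul p hQ1 (ih _ (Nat.div_lt_self hn hQ))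
      have h4 := rn_nat p (n % Q)
      have h5 : ((n % Q : ℕ) : ℝ) ≤ Q := by exact_mod_cast (Nat.mod_lt n (by omega)).le
      have h6 := map_add_le_add p ((Q : D) * (n / Q : ℕ)) (n % Q : ℕ)
      rw [← Nat.cast_mul, ← Nat.cast_add, Nat.div_add_mod, Nat.cast_mul] at h6
      nlinarith
  have hZ : ∀ n : ℤ, p n ≤ 2 * Q * p 1 := by
    intro n
    obtain ⟨n, rfl | rfl⟩ := n.eq_nat_or_neg
    · simpa using hN n
    · simpa using hN n
  have hB : 0 ≤ 2 * Q * p 1 := (apply_nonneg p _).trans (hN 0)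
  have hC' : 0 ≤ C := by simpa using (apply_nonneg p _).trans (hC 0)
  have hC0' : 0 ≤ C0 := by simpa using (apply_nonneg p _).trans (hC0 0)
  refine rn_nil p (C := 2 * Q * p 1 * (C + C0)) (η := max η θ) (le_max_of_le_left h0)
    (max_lt (h1.trans_le hε) g1) fun k => ?_
  obtain ⟨α, β, e⟩ := (Nat.isCoprime_iff_coprime.2 ((Nat.coprime_primes hl hq).2 hlq)).pow
    (m := k) (n := k)
  have e2 : (1 : D) = α * (l : D) ^ k + β * (q : D) ^ k := by
    have := congrArg (Int.cast : ℤ → D) e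
    simpa using this.symm
  have h2 := map_add_le_add p (α * (l : D) ^ k) (β * (q : D) ^ k)
  rw [← e2] at h2
  have h3 := rn_mul p (hZ α) ((hC k).trans
    (mul_le_mul_of_nonneg_left (pow_le_pow_left₀ h0 (le_max_left η θ) k) hC'))
  have h4 := rn_mul p (hZ β) ((hC0 k).trans
    (mul_le_mul_of_nonneg_left (pow_le_pow_left₀ g0 (le_max_right η θ) k) hC0'))
  linarith

lemma rn_inv {u : D} (hu : p (u - 1) ≤ 1 / 2) : u ≠ 0 ∧ p u⁻¹ ≤ 2 * p 1 := by
  have h1 := rn_one p
  have h0 : u ≠ 0 := by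
    rintro rfl
    rw [zero_sub, map_neg_eq_map] at hu
    linarith
  refine ⟨h0, ?_⟩
  have h2 := map_sub_le_add p 1 (u⁻¹ * (u - 1))
  have h3 := rn_mul p (le_refl (p u⁻¹)) hu
  have e : 1 - u⁻¹ * (u - 1) = u⁻¹ := by simp [mul_sub, h0]
  rw [e] at h2
  linarith

/-- functions tending to `1` at `0` -/
def To1 (u : D → D) : Prop := Tendsto (fun x => p (u x - 1)) (comap p (𝓝 0)) (𝓝 0)

lemma To1.lt {u : D → D} (h : To1 p u) {ε : ℝ} (hε : 0 < ε) :
    ∀ᶠ x in comap p (𝓝 0), p (u x - 1) < ε := h.eventually (gt_mem_nhds hε)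

lemma To1.mul {u v : D → D} (h : To1 p u) (h' : To1 p v) : To1 p fun x => u x * v x := by
  refine squeeze_zero (fun _ => apply_nonneg p _) (fun x => ?_)
    (by simpa using ((Tendsto.mul h h').add h).add h')
  have e : u x * v x - 1 = (u x - 1) * (v x - 1) + (u x - 1) + (v x - 1) := by noncomm_ring
  rw [e]
  exact (map_add_le_add p _ _).trans (add_le_add_left ((map_add_le_add p _ _).trans
    (add_le_add_left (map_mul_le_mul p _ _) _)) _)

lemma To1.conj {u : D → D} (h : To1 p u) {a : D} (ha : a ≠ 0) :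
    To1 p fun x => a * u x * a⁻¹ := by
  refine squeeze_zero (fun _ => apply_nonneg p _) (fun x => ?_)
    (by simpa using (h.const_mul (p a)).mul_const (p a⁻¹))
  have e : a * u x * a⁻¹ - 1 = a * (u x - 1) * a⁻¹ := by simp [mul_sub, sub_mul, ha]
  rw [e]
  exact rn_mul p (map_mul_le_mul p _ _) le_rfl

lemma To1.inv {u : D → D} (h : To1 p u) : To1 p fun x => (u x)⁻¹ := by
  refine squeeze_zero' (Eventually.of_forall fun _ => apply_nonneg p _)
    ((h.lt p one_half_pos).mono fun x hx => ?_) (by simpa using h.const_mul (2 * p 1))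
  obtain ⟨h0, h1⟩ := rn_inv p hx.le
  have e : (u x)⁻¹ - 1 = -((u x)⁻¹ * (u x - 1)) := by simp [mul_sub, h0]
  rw [e, map_neg_eq_map]
  exact rn_mul p h1 le_rfl

lemma To1.pow {u : D → D} (h : To1 p u) (n : ℕ) : To1 p fun x => u x ^ n := by
  induction n with
  | zero => simpa [To1] using tendsto_const_nhds
  | succ n ih => simpa only [pow_succ] using ih.mul p h

lemma To1.ds {a : D} (ha : a ≠ 0) (k : ℕ) : To1 p fun x => ds a (1 + x) k := by
  induction k with
  | zero => simpa [To1, Work.MP_b4cb8e_al.ds] using tendsto_comap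
  | succ k ih => exact ih.mul p ((ih.inv p).conj p ha)

lemma descent {a : D} (ha : a ≠ 0) {m : ℕ} (hm : (m : D) ≠ 0) (h : a ^ m ∈ Subring.center D)
    (k : ℕ) (hk : ∀ᶠ x in comap p (𝓝 0), a * ds a (1 + x) k = ds a (1 + x) k * a) :
    ∀ᶠ x in comap p (𝓝 0), a * x = x * a := by
  induction k with
  | zero => exact hk.mono fun x hx => by simpa [ds, mul_add, add_mul] using hx
  | succ k ih =>
    apply ih
    have h1 := tendsto_finsetSum (Finset.range m) fun i _ => (To1.ds p ha (k + 1)).pow p i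
    rw [Finset.sum_const_zero] at h1
    filter_upwards [hk, (To1.ds p ha k).lt p one_half_pos,
      h1.eventually (gt_mem_nhds (map_pos_of_ne_zero p hm))] with x h2 h3 h4
    have hv := (rn_inv p h3.le).1
    have e : ds a (1 + x) (k + 1) * a = ds a (1 + x) k * a * (ds a (1 + x) k)⁻¹ := by
      simp [ds, mul_assoc, ha]
    generalize ds a (1 + x) (k + 1) = u at h2 h4 e
    generalize ds a (1 + x) k = v at hv e
    have h5 : u ^ m = 1 := by
      apply mul_right_cancel₀ (pow_ne_zero m ha)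
      rw [← (show Commute u a from h2.symm).mul_pow, e, ← cjr_apply hv, ← map_pow, cjr_apply,
        mem_center.1 h v]
      simp [hv]
    have h6 : u = 1 := by
      by_contra h6
      have h7 := geom_sum_mul u m
      rw [h5, sub_self] at h7
      have h8 := rn_sum p (Finset.range m) fun i => u ^ i - 1
      rw [Finset.sum_sub_distrib, (mul_eq_zero.1 h7).resolve_right (sub_ne_zero.2 h6)] at h8
      simp only [Finset.sum_const, Finset.card_range, nsmul_eq_mul, mul_one, zero_sub,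
        map_neg_eq_map] at h8
      exact absurd h4 (not_lt.2 h8)
    rw [h6, one_mul] at e
    calc a * v = v * a * v⁻¹ * v := by rw [← e]
      _ = v * a := by simp [hv]

/-- Herstein's conjecture for nondiscrete normed division rings -/
theorem HC_of_norm {z : D} (hz : z ≠ 0) (hz1 : p z < 1) : HC D := by
  intro N hN hrad a ha
  have ha0 := SN.ne_zero ha
  obtain ⟨r, hr⟩ := absorb hN
  obtain ⟨m, hm, h⟩ := rad_coprime hN hrad ha
  obtain ⟨ε, hε, hε1, hno⟩ := no_small_prime p
  have h1 := rn_one p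
  have h2 := descent p ha0 hm h r (by
    filter_upwards [(To1.ds p ha0 0).lt p one_half_pos, (To1.ds p ha0 r).lt p one_half_pos,
      (To1.ds p ha0 r).lt p (show 0 < ε / (4 * p 1) by positivity)] with x h2 h3 h4
    have h5 := hr a ha (1 + x) (rn_inv p h2.le).1
    generalize ds a (1 + x) r = u at h3 h4 h5
    by_contra hc
    obtain ⟨n, g1, g2, g3, g4⟩ := minpoly_eq hN hrad h5 fun h6 => hc (mem_center.1 h6 a)
    obtain ⟨h6, h7⟩ := rn_inv p h3.le
    rw [lt_div_iff₀ (by positivity)] at h4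
    have h8 := apply_nonneg p (u - 1)
    obtain ⟨l, hl, hl0, C, hC⟩ := small_prime p g1 g2 h6 g3
      (by rw [← g4, natDegree_X_pow_sub_C]) (η := p (u - 1) * (4 * p 1)) (by positivity)
      (by linarith) (fun y => by
        have e : y - u * y * u⁻¹ = (y * (u - 1) - (u - 1) * y) * u⁻¹ := by
          simp [mul_sub, sub_mul, h6]
        rw [e]
        refine (rn_mul p ((map_sub_le_add p _ _).trans (add_le_add (map_mul_le_mul p _ _)
          (map_mul_le_mul p _ _))) h7).trans_eq (by ring))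
    exact hno _ (by positivity) h4 l hl hl0 C hC)
  have h3 : ∀ y, Tendsto (fun k : ℕ => z ^ k * y) atTop (comap p (𝓝 0)) := fun y => by
    rw [tendsto_comap_iff]
    refine squeeze_zero (fun _ => apply_nonneg p _) (fun k => rn_mul p (rn_pow p z k) le_rfl) ?_
    simpa using ((tendsto_pow_atTop_nhds_zero_of_lt_one (apply_nonneg p z) hz1).const_mul
      (p 1)).mul_const (p y)
  refine mem_center.2 fun y => ?_
  obtain ⟨k, h4, h5⟩ := (((h3 1).eventually h2).and ((h3 y).eventually h2)).exists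
  rw [mul_one] at h4
  apply mul_left_cancel₀ (pow_ne_zero k hz)
  rw [← mul_assoc, ← h5, ← mul_assoc, h4, mul_assoc]

/-- restriction of a norm -/
def rn_comap {E : Type u} [DivisionRing E] (f : E →+* D) : RingNorm E where
  toFun x := p (f x)
  map_zero' := by simp
  add_le' x y := by rw [map_add]; exact map_add_le_add p _ _
  neg' x := by simp
  mul_le' x y := by rw [map_mul]; exact map_mul_le_mul p _ _
  eq_zero_of_map_eq_zero' x hx := (map_eq_zero f).1 (eq_zero_of_map_eq_zero p hx)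

theorem QQ_of_norm {z : D} (hz : z ≠ 0) (hz1 : p z < 1) : QQ D := by
  intro K hK N hN hrad
  by_contra hcon
  push Not at hcon
  obtain ⟨E, -, hT, N', -, h2, ⟨x, hx, hx'⟩, h4⟩ := reduce hK hN hcon hrad {z}
  exact hx' (HC_of_norm (rn_comap p E.subtype) (z := ⟨z, hT z (by simp)⟩)
    (fun h => hz (congrArg Subtype.val h)) hz1 N' h2 h4 x hx)

/-- the local form of the norm criterion -/
theorem central_of_norm {K : Subfield D} (hK : K ≠ ⊤) {N : Subgroup Dˣ} (hN : N.IsSubnormal)
    (hrad : ∀ x ∈ SN N, ∃ m : ℕ, 1 ≤ m ∧ x ^ m ∈ K)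
    (h : ∀ a ∈ SN N, ∀ b ∈ SN N, a * b ≠ b * a → ∃ G : Subfield D, a ∈ G ∧ b ∈ G ∧
      ∃ (q : RingNorm G) (z : G), z ≠ 0 ∧ q z < 1 ∧ ((z : D) ∈ Subring.center D ∨ ¬ G ≤ K)) :
    ∀ x ∈ SN N, x ∈ Subring.center D := by
  by_contra hcon
  push Not at hcon
  obtain ⟨E, hZ, -, N', h1, h2, ⟨a, ha, ha'⟩, h4⟩ := reduce hK hN hcon hrad ∅
  refine ha' (CC_all N' h2 a (fun b hb => ?_) ha' a ha)
  by_contra hab
  obtain ⟨G, haG, hbG, q, z, hz, hz1, hF | hGK⟩ := h _ (h1 a ha) _ (h1 b hb)
    fun e => hab (Subtype.ext e.symm)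
  · let G' : Subfield E := G.comap E.subtype
    exact hab ((HC_of_norm (rn_comap q ((E.subtype.comp G'.subtype).codRestrict G fun x => x.2))
      (z := ⟨⟨z, hZ _ hF⟩, z.2⟩) (fun e => hz (Subtype.ext (congrArg (fun w : G' => ((w : E) : D)) e)))
      hz1).pull G'.subtype h2 (fun x hx => by
        obtain ⟨m, hm, e⟩ := h4 _ hx
        exact ⟨m, hm, fun y => mem_center.1 e _⟩) ⟨a, haG⟩ ⟨b, hbG⟩ ha)
  · obtain ⟨e, he, he'⟩ := Set.not_subset.1 hGK
    exact hab (Subtype.ext ((QQ_of_norm q hz hz1).pull G.subtype K hN ⟨e, he⟩ he' hrad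
      ⟨a, haG⟩ ⟨b, hbG⟩ (h1 a ha)))

end Pool.Agent.Work.MP_b4cb8e_al
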