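import Pool.Agent.Work.MP_b4cb8e_al.Tr.Norm

set_option autoImplicit false

namespace Pool.Agent.Work.MP_b4cb8e_al

universe u

variable {D : Type u} [DivisionRing D]

/-- the two generator criterion with norms -/
theorem central_of_pairsN {K : Subfield D} (hK : K ≠ ⊤) {N : Subgroup Dˣ} (hN : N.IsSubnormal)
    (hrad : ∀ x ∈ SN N, ∃ m : ℕ, 1 ≤ m ∧ x ^ m ∈ K)
    (h : ∀ a ∈ SN N, ∀ b ∈ SN N, a * b ≠ b * a →
      (∃ G : Subfield D, a ∈ G ∧ b ∈ G ∧ ∃ (q : RingNorm G) (z : G), z ≠ 0 ∧ q z < 1 ∧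
        ((z : D) ∈ Subring.center D ∨ ¬ G ≤ K)) ∨
      (∀ L : Subfield D, (∀ x ∈ L, ∀ y ∈ L, x * y = y * x) →
        (L : Set D) ⊆ Subring.closure {a, b} → (L : Set D).Finite) ∨
      ∃ t ∈ Subfield.closure ((Subring.center D : Set D) ∪ {a, b}), t ≠ 0 ∧ t * a = a * t ∧
        t * b = b * t ∧ t⁻¹ ∉ Subring.closure {t, t * a, t * b}) :
    ∀ x ∈ SN N, x ∈ Subring.center D := by
  by_contra hcon
  push Not at hcon
  obtain ⟨E, hZ, -, N', h1, h2, ⟨a, ha, ha'⟩, h4⟩ := reduce hK hN hcon hrad ∅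
  refine ha' (CC_all N' h2 a (fun b hb => ?_) ha' a ha)
  by_contra hab
  apply hab
  rcases h _ (h1 a ha) _ (h1 b hb) fun e => hab (Subtype.ext e.symm) with
    ⟨G, haG, hbG, q, z, hz, hz1, hF | hGK⟩ | hL | ⟨t, htG, ht0, hta, htb, ht1⟩
  · let G' : Subfield E := G.comap E.subtype
    exact (HC_of_norm (rn_comap q ((E.subtype.comp G'.subtype).codRestrict G fun x => x.2))
      (z := ⟨⟨z, hZ _ hF⟩, z.2⟩)
      (fun e => hz (Subtype.ext (congrArg (fun w : G' => ((w : E) : D)) e)))
      hz1).pull G'.subtype h2 (fun x hx => by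
        obtain ⟨m, hm, e⟩ := h4 _ hx
        exact ⟨m, hm, fun y => mem_center.1 e _⟩) ⟨a, haG⟩ ⟨b, hbG⟩ ha
  · obtain ⟨e, he, he'⟩ := Set.not_subset.1 hGK
    exact Subtype.ext ((QQ_of_norm q hz hz1).pull G.subtype K hN ⟨e, he⟩ he' hrad
      ⟨a, haG⟩ ⟨b, hbG⟩ (h1 a ha))
  · let B : Subring E := (Subring.closure {(a : D), (b : D)}).comap E.subtype
    have haB : a ∈ B := Subring.subset_closure (by simp)
    have hbB : b ∈ B := Subring.subset_closure (by simp)
    by_cases hπ : ∃ π ∈ B, π ∈ Subring.center E ∧ π⁻¹ ∉ B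
    · obtain ⟨π, h5, h6, h7⟩ := hπ
      exact comm_of_nonunit h2 h4 hb ha (t := 1) (one_mem _) one_ne_zero (by simpa using hbB)
        (by simpa using haB) h5 h6 (by rintro rfl; exact h7 (by simp)) h7
    push Not at hπ
    let L : Subfield E :=
      { B ⊓ Subring.center E with
        inv_mem' := fun x hx => ⟨hπ x hx.1 hx.2, center_inv hx.2⟩ }
    have hfin : (L : Set E).Finite := by
      refine Set.Finite.of_finite_image (f := E.subtype) (hL (L.map E.subtype) ?_ ?_)
        E.subtype.injective.injOn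
      · rintro _ ⟨x, -, rfl⟩ _ ⟨y, hy, rfl⟩
        exact congrArg Subtype.val (mem_center.1 hy.2 x)
      · rintro _ ⟨x, hx, rfl⟩
        exact hx.1
    obtain ⟨p, hp⟩ := CharP.exists E
    have hpr : p.Prime := (CharP.char_is_prime_or_zero E p).resolve_right (by
      rintro rfl
      have : CharZero E := CharP.charP_to_charZero E
      exact Set.infinite_of_injective_forall_mem (Nat.cast_injective (R := E))
        (fun n => natCast_mem L n) hfin)
    have : Fact p.Prime := ⟨hpr⟩
    obtain ⟨m, hm, e⟩ := h4 a ha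
    exact absurd (TL p (K := cent Set.univ) h2 (rad_K h4) ha (by rwa [mem_cent_univ])
      (Tor.of_pow hm (tor_of_finite (pow_ne_zero _ (SN.ne_zero ha)) hfin fun n =>
        pow_mem (show a ^ m ∈ L from ⟨pow_mem haB m, e⟩) n))) ha'
  · set G := Subfield.closure ((Subring.center D : Set D) ∪ {(a : D), (b : D)}) with hG
    have hGE : G ≤ E := by
      rw [hG, Subfield.closure_le]
      rintro w (hw | rfl | rfl)
      · exact hZ w hw
      · exact a.2
      · exact b.2
    have hGt : G ≤ cent {t} := by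
      rw [hG, Subfield.closure_le]
      rintro w (hw | rfl | rfl) _ rfl
      · exact mem_center.1 hw _
      · exact hta
      · exact htb
    let t' : G := ⟨t, htG⟩
    let a' : G := ⟨a, Subfield.subset_closure (by simp)⟩
    let b' : G := ⟨b, Subfield.subset_closure (by simp)⟩
    have ht' : t' ∈ Subring.center G := mem_center.2 fun w => Subtype.ext (hGt w.2 t rfl).symm
    have ht0' : t' ≠ 0 := fun h => ht0 (congrArg Subtype.val h)
    have := comm_of_nonunit (pull_subnormal (Subfield.inclusion hGE) h2) (fun x hx => by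
        obtain ⟨m, hm, e⟩ := h4 _ ((mem_pull _ _).1 hx)
        refine ⟨m, hm, mem_center.2 fun w => (Subfield.inclusion hGE).injective ?_⟩
        simpa using mem_center.1 e (Subfield.inclusion hGE w))
      (a := b') (b := a') ((mem_pull _ _).2 hb) ((mem_pull _ _).2 ha)
      (B := (Subring.closure {t, t * (a : D), t * (b : D)}).comap G.subtype) ht' ht0'
      (Subring.subset_closure (by simp [t', b'])) (Subring.subset_closure (by simp [t', a']))
      (π := t') (Subring.subset_closure (by simp [t'])) ht' ht0' ht1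
    exact Subtype.ext (congrArg (fun z : G => (z : D)) this)

end Pool.Agent.Work.MP_b4cb8e_al
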