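import Pool.Agent.Work.MP_b4cb8e_al.Mal

set_option autoImplicit false

namespace Pool.Agent.Work.MP_b4cb8e_al

open Polynomial Filter

universe u

variable {D : Type u} [DivisionRing D]

/-- sums of additive commutators -/
def Cm (D : Type u) [DivisionRing D] : Submodule (Subring.center D) D where
  carrier := AddSubgroup.closure {z : D | ∃ x y : D, z = x * y - y * x}
  add_mem' := fun ha hb => AddSubgroup.add_mem _ ha hb
  zero_mem' := AddSubgroup.zero_mem _
  smul_mem' := by
    intro c z hz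
    induction hz using AddSubgroup.closure_induction with
    | mem z hz =>
      obtain ⟨x, y, rfl⟩ := hz
      refine AddSubgroup.subset_closure ⟨(c : D) * x, y, ?_⟩
      rw [Subring.smul_def, smul_eq_mul, mul_sub, ← mul_assoc y, mem_center.1 c.2 y]
      simp only [mul_assoc]
    | zero => simp
    | add u w _ _ hu hw => rw [smul_add]; exact AddSubgroup.add_mem _ hu hw
    | neg u _ hu => rw [smul_neg]; exact AddSubgroup.neg_mem _ hu

lemma comm_mem_Cm (x y : D) : x * y - y * x ∈ Cm D := AddSubgroup.subset_closure ⟨x, y, rfl⟩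

lemma conj_sub_mem_Cm {d : D} (hd : d ≠ 0) (a : D) : d * a * d⁻¹ - a ∈ Cm D := by
  have := comm_mem_Cm (d * a) d⁻¹
  rwa [← mul_assoc, inv_mul_cancel₀ hd, one_mul] at this

lemma eval_mul_of {x y : D} (p q : D[X]) (h : y * q.eval x = q.eval x * x) :
    (p * q).eval x = p.eval y * q.eval x := by
  induction p using Polynomial.induction_on' with
  | add p r hp hr => rw [add_mul, eval_add, hp, hr, eval_add, add_mul]
  | monomial n a =>
    have e : ∀ j : ℕ, y ^ j * q.eval x = q.eval x * x ^ j := by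
      intro j
      induction j with
      | zero => simp
      | succ j ih => rw [pow_succ', mul_assoc, ih, ← mul_assoc, h, mul_assoc, ← pow_succ']
    rw [← C_mul_X_pow_eq_monomial, mul_assoc, X_pow_mul, eval_C_mul, eval_mul_X_pow, eval_C_mul,
      eval_X_pow, mul_assoc, e]

lemma factor_right (x : D) (p : D[X]) : ∃ q : D[X], p = q * (X - C x) + C (p.eval x) := by
  induction p using Polynomial.induction_on' with
  | add p r hp hr =>
    obtain ⟨q1, h1⟩ := hp
    obtain ⟨q2, h2⟩ := hr
    refine ⟨q1 + q2, ?_⟩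
    rw [eval_add, map_add, add_mul, add_add_add_comm, ← h1, ← h2]
  | monomial n a =>
    refine ⟨C a * ∑ i ∈ Finset.range n, X ^ i * C x ^ (n - 1 - i), ?_⟩
    have hc : (∑ i ∈ Finset.range n, X ^ i * C x ^ (n - 1 - i)) * (X - C x) =
        (X : D[X]) ^ n - C x ^ n := Commute.geom_sum₂_mul (commute_X (C x)) n
    rw [mul_assoc, hc, eval_monomial, map_mul, map_pow, ← mul_add,
      sub_add_cancel, C_mul_X_pow_eq_monomial]

/-- the conjugacy class -/
def Cl (a : D) : Set D := {s | ∃ d : D, d ≠ 0 ∧ s = d * a * d⁻¹}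

lemma Cl.conj {a s d : D} (hs : s ∈ Cl a) (hd : d ≠ 0) : d * s * d⁻¹ ∈ Cl a := by
  obtain ⟨e, he, rfl⟩ := hs
  exact ⟨d * e, mul_ne_zero hd he, by simp [mul_assoc]⟩

lemma eval_cj {d : D} (hd : d ≠ 0) (g : D[X]) (s : D) :
    (g.map (cjr hd)).eval (d * s * d⁻¹) = d * g.eval s * d⁻¹ := by
  rw [eval_map, ← cjr_apply hd, eval₂_at_apply, cjr_apply]

lemma eval_ctr (f : (Subring.center D)[X]) (x : D) :
    (f.map (algebraMap (Subring.center D) D)).eval x = aeval x f := by
  rw [eval_map, aeval_def]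

lemma deg_le_of_vanish (a : D) (n : ℕ) : ∀ g : D[X], g.natDegree = n → g ≠ 0 →
    (∀ s ∈ Cl a, g.eval s = 0) → (minpoly (Subring.center D) a).natDegree ≤ n := by
  induction n using Nat.strong_induction_on with
  | _ n ih =>
    intro g0 hn hg0 hv0
    have hl : g0.leadingCoeff⁻¹ ≠ 0 := inv_ne_zero (leadingCoeff_ne_zero.2 hg0)
    let g := C g0.leadingCoeff⁻¹ * g0
    have hgn : g.natDegree = n := by rw [← hn]; exact natDegree_C_mul hl
    have hm : g.Monic := by
      rw [Monic, leadingCoeff_mul, leadingCoeff_C, inv_mul_cancel₀ (leadingCoeff_ne_zero.2 hg0)]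
    have hv : ∀ s ∈ Cl a, g.eval s = 0 := fun s hs => by rw [eval_C_mul, hv0 s hs, mul_zero]
    by_cases hc : ∀ d : D, ∀ hd : d ≠ 0, g.map (cjr hd) = g
    · have h1 : g ∈ lifts (algebraMap (Subring.center D) D) := by
        rw [lifts_iff_coeff_lifts]
        intro i
        refine ⟨⟨g.coeff i, mem_center.2 fun y => ?_⟩, rfl⟩
        by_cases hy : y = 0
        · simp [hy]
        · have := congrArg (fun p => coeff p i) (hc y hy)
          simp only [coeff_map, cjr_apply] at this
          calc y * g.coeff i = y * g.coeff i * y⁻¹ * y := by simp [hy]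
            _ = _ := by rw [this]
      obtain ⟨f, hf, hd, hfm⟩ := lifts_and_natDegree_eq_and_monic h1 hm
      rw [← hgn, ← hd]
      refine natDegree_le_natDegree (minpoly.min _ _ hfm ?_)
      rw [← eval_ctr, hf]
      exact hv a ⟨1, one_ne_zero, by simp⟩
    · push Not at hc
      obtain ⟨d, hd, hne⟩ := hc
      have h2 : (g.map (cjr hd) - g).natDegree < n := by
        rw [← hgn]
        refine natDegree_lt_natDegree (sub_ne_zero.2 hne) ?_
        have := degree_sub_lt_left (p := g.map (cjr hd)) (q := g) (hm.degree_map _)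
          (hm.map _).ne_zero (by rw [(hm.map _).leadingCoeff, hm.leadingCoeff])
        rwa [hm.degree_map] at this
      refine (ih _ h2 _ rfl (sub_ne_zero.2 hne) fun s hs => ?_).trans h2.le
      have h3 := eval_cj hd g (d⁻¹ * s * d⁻¹⁻¹)
      rw [hv _ (Cl.conj hs (inv_ne_zero hd))] at h3
      have e : d * (d⁻¹ * s * d⁻¹⁻¹) * d⁻¹ = s := by simp [mul_assoc, hd]
      rw [e] at h3
      rw [eval_sub, h3, hv s hs]
      simp

/-- Wedderburn's factorisation, step by step -/
lemma wedd_step (a : D) (r : ℕ) (hr : r ≤ (minpoly (Subring.center D) a).natDegree) :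
    ∃ q h : D[X], (minpoly (Subring.center D) a).map (algebraMap (Subring.center D) D) = q * h ∧
      h.Monic ∧ h.natDegree = r ∧ h.nextCoeff + (r : D) * a ∈ Cm D ∧
      ∀ x, h.eval x = 0 → x ∈ Cl a := by
  induction r with
  | zero =>
    exact ⟨_, 1, (mul_one _).symm, monic_one, natDegree_one, by simp [nextCoeff],
      fun x hx => by simp at hx⟩
  | succ r ih =>
    obtain ⟨q, h, e, hm, hd, ht, hroot⟩ := ih (by omega)
    obtain ⟨s, hs, hu⟩ : ∃ s ∈ Cl a, h.eval s ≠ 0 := by
      by_contra hcon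
      push Not at hcon
      have := deg_le_of_vanish a r h hd hm.ne_zero hcon
      omega
    have hs0 : (q * h).eval s = 0 := by
      obtain ⟨d, hd0, rfl⟩ := hs
      have h1 : ((minpoly (Subring.center D) a).map (algebraMap (Subring.center D) D)).map
          (cjr hd0) = (minpoly (Subring.center D) a).map (algebraMap (Subring.center D) D) := by
        rw [Polynomial.map_map]
        congr 1
        ext c
        simp only [RingHom.comp_apply, cjr_apply]
        change d * (c : D) * d⁻¹ = c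
        rw [mem_center.1 c.2 d, mul_assoc, mul_inv_cancel₀ hd0, mul_one]
      rw [← e, ← h1, eval_cj, eval_ctr, minpoly.aeval]
      simp
    set u := h.eval s
    have hs' := Cl.conj hs hu
    rw [eval_mul_of (y := u * s * u⁻¹) q h (by simp [u, mul_assoc, hu])] at hs0
    obtain ⟨q', hq'⟩ := factor_right (u * s * u⁻¹) q
    rw [(mul_eq_zero.1 hs0).resolve_right hu, map_zero, add_zero] at hq'
    generalize u * s * u⁻¹ = s' at hs' hq'
    refine ⟨q', (X - C s') * h, by rw [e, hq', mul_assoc], (monic_X_sub_C s').mul hm, ?_, ?_, ?_⟩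
    · rw [(monic_X_sub_C s').natDegree_mul hm, natDegree_X_sub_C, hd, add_comm]
    · rw [(monic_X_sub_C s').nextCoeff_mul hm, nextCoeff_X_sub_C]
      obtain ⟨d, hd0, rfl⟩ := hs'
      have := (Cm D).sub_mem ht (conj_sub_mem_Cm hd0 a)
      have e2 : -(d * a * d⁻¹) + h.nextCoeff + ((r + 1 : ℕ) : D) * a =
          h.nextCoeff + (r : D) * a - (d * a * d⁻¹ - a) := by
        push_cast
        noncomm_ring
      rwa [e2]
    · intro x hx
      by_cases hv : h.eval x = 0
      · exact hroot x hv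
      · rw [eval_mul_of (y := h.eval x * x * (h.eval x)⁻¹) _ h (by simp [mul_assoc, hv])] at hx
        have h2 := (mul_eq_zero.1 hx).resolve_right hv
        rw [eval_sub, eval_X, eval_C, sub_eq_zero] at h2
        have h3 := Cl.conj hs' (inv_ne_zero hv)
        rw [← h2] at h3
        simpa [mul_assoc, hv] using h3

lemma wedd {a : D} (ha : IsIntegral (Subring.center D) a) :
    ((minpoly (Subring.center D) a).nextCoeff : D) +
      ((minpoly (Subring.center D) a).natDegree : D) * a ∈ Cm D ∧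
      ∀ x, aeval x (minpoly (Subring.center D) a) = 0 → x ∈ Cl a := by
  obtain ⟨q, h, e, hm, hd, ht, hroot⟩ := wedd_step a _ le_rfl
  have hf := (minpoly.monic ha).map (algebraMap (Subring.center D) D)
  have hq : q.Monic := hm.of_mul_monic_right (e ▸ hf)
  have hq1 : q = 1 := by
    rw [← hq.natDegree_eq_zero]
    have := congrArg natDegree e
    rw [hq.natDegree_mul hm, (minpoly.monic ha).natDegree_map, hd] at this
    omega
  rw [hq1, one_mul] at e
  refine ⟨?_, fun x hx => hroot x (by rw [← e, eval_ctr, hx])⟩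
  rwa [← e, nextCoeff_map (algebraMap (Subring.center D) D).injective] at ht

lemma integral_of_pow {a : D} {m : ℕ} (hm : 1 ≤ m) (h : a ^ m ∈ Subring.center D) :
    IsIntegral (Subring.center D) a :=
  ⟨X ^ m - C ⟨a ^ m, h⟩, monic_X_pow_sub_C _ (by omega), by
    rw [← aeval_def, map_sub, map_pow, aeval_X, aeval_C]
    exact sub_self _⟩

/-- a noncentral root of unity has a second conjugate among its powers -/
lemma second_root {η : D} {m : ℕ} (hm : (m : D) ≠ 0) (h1 : η ^ m = 1)
    (hη : η ∉ Subring.center D) :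
    ∃ i : ℕ, η ^ i ≠ η ∧ aeval (η ^ i) (minpoly (Subring.center D) η) = 0 := by
  have hm0 : m ≠ 0 := by
    rintro rfl
    simp at hm
  have hint : IsIntegral (Subring.center D) η :=
    integral_of_pow (Nat.one_le_iff_ne_zero.2 hm0) (h1 ▸ one_mem _)
  set g := minpoly (Subring.center D) η with hg
  have : Fact (Irreducible g) := ⟨minpoly.irreducible hint⟩
  have key : ∀ p : (Subring.center D)[X], aeval (AdjoinRoot.root g) p = 0 ↔ aeval η p = 0 :=
    fun p => by rw [AdjoinRoot.aeval_eq, AdjoinRoot.mk_eq_zero, hg, minpoly.dvd_iff]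
  set ρ := AdjoinRoot.root g
  have hρ : ρ ^ m = 1 := by
    have := (key (X ^ m - 1)).2 (by simp [h1])
    simpa [sub_eq_zero] using this
  have hn : 0 < orderOf ρ := orderOf_pos_iff.2 (isOfFinOrder_iff_pow_eq_one.2 ⟨m, by omega, hρ⟩)
  have hprim := IsPrimitiveRoot.orderOf ρ
  have hd1 : g ∣ X ^ orderOf ρ - 1 := by
    refine minpoly.dvd_iff.2 ((key _).1 ?_)
    simp [pow_orderOf_eq_one]
  have hsep : g.Separable := by
    have hmF : (m : Subring.center D) ≠ 0 := fun h => hm (by simpa using congrArg Subtype.val h)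
    refine (X_pow_sub_one_separable_iff.2 hmF).of_dvd ?_
    rw [hg, minpoly.dvd_iff]
    simp [h1]
  have hdeg : 2 ≤ g.natDegree := by
    have h2 := minpoly.natDegree_pos hint
    have h3 : g.natDegree ≠ 1 := fun h => by
      obtain ⟨c, hc⟩ := minpoly.natDegree_eq_one_iff.1 h
      exact hη (hc ▸ c.2)
    rw [← hg] at h2
    omega
  set G := g.map (algebraMap (Subring.center D) (AdjoinRoot g)) with hG
  have hG0 : G ≠ 0 := ((minpoly.monic hint).map _).ne_zero
  obtain ⟨g1, hg1⟩ : X - C ρ ∣ G := dvd_iff_isRoot.2 (AdjoinRoot.isRoot_root g)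
  have hg10 : g1 ≠ 0 := by
    rintro rfl
    exact hG0 (by simpa using hg1)
  have hd2 : G ∣ X ^ orderOf ρ - 1 := by
    have := Polynomial.map_dvd (algebraMap (Subring.center D) (AdjoinRoot g)) hd1
    rwa [Polynomial.map_sub, Polynomial.map_pow, map_X, Polynomial.map_one] at this
  have hsp : g1.Splits := by
    refine Splits.of_dvd (X_pow_sub_one_splits hprim) ?_ ((Dvd.intro_left _ hg1.symm).trans hd2)
    exact (monic_X_pow_sub_C (1 : AdjoinRoot g) hn.ne').ne_zero
  have hdg : g1.degree ≠ 0 := by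
    intro h
    have h3 := congrArg natDegree hg1
    rw [natDegree_mul (X_sub_C_ne_zero ρ) hg10, natDegree_X_sub_C, natDegree_eq_zero_iff_degree_le_zero.2 h.le,
      hG, natDegree_map] at h3
    omega
  obtain ⟨r, hr⟩ := hsp.exists_eval_eq_zero hdg
  have hGr : G.eval r = 0 := by rw [hg1, eval_mul, hr, mul_zero]
  have hr1 : r ^ orderOf ρ = 1 := by
    obtain ⟨c, hc⟩ := hd2
    have := congrArg (eval r) hc
    rw [eval_mul, hGr, zero_mul] at this
    simpa [sub_eq_zero] using this
  have : NeZero (orderOf ρ) := ⟨hn.ne'⟩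
  obtain ⟨i, -, rfl⟩ := hprim.eq_pow_of_pow_eq_one hr1
  refine ⟨i, fun h => ?_, ?_⟩
  · have h4 : ρ ^ i = ρ := by
      have := (key (X ^ i - X)).2 (by simp [h])
      simpa [sub_eq_zero] using this
    rw [h4] at hr
    obtain ⟨g2, hg2⟩ : X - C ρ ∣ g1 := dvd_iff_isRoot.2 hr
    exact not_isUnit_X_sub_C ρ ((hsep.map).squarefree _ ⟨g2, by rw [← hG, hg1, hg2, mul_assoc]⟩)
  · have h5 := (key (g.comp (X ^ i))).1 (by
      rw [aeval_comp, map_pow, aeval_X, ← eval_map_algebraMap]
      exact hGr)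
    rwa [aeval_comp, map_pow, aeval_X] at h5

/-- scalar multiples of roots of unity -/
lemma scalar_root {N : Subgroup Dˣ} (hN : N.IsSubnormal)
    (hrad : ∀ x ∈ SN N, ∃ m : ℕ, 1 ≤ m ∧ x ^ m ∈ Subring.center D) {ν η : D} {m : ℕ}
    (hν : ν ∈ Subring.center D) (hx : ν * η ∈ SN N) (hm : (m : D) ≠ 0) (h1 : η ^ m = 1) :
    ν * η ∈ Subring.center D := by
  by_contra hc
  have hm0 : m ≠ 0 := by
    rintro rfl
    simp at hm
  have hη : η ∉ Subring.center D := fun h => hc (mul_mem hν h)
  obtain ⟨i, hi, hroot⟩ := second_root hm h1 hη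
  obtain ⟨y, hy0, hy⟩ := (wedd (integral_of_pow (Nat.one_le_iff_ne_zero.2 hm0)
    (h1 ▸ one_mem _))).2 _ hroot
  have hpow : ∀ j : ℕ, y ^ j * η * (y ^ j)⁻¹ = η ^ (i ^ j) := by
    intro j
    induction j with
    | zero => simp
    | succ j ih =>
      rw [pow_succ' y, mul_inv_rev, pow_succ' i, pow_mul, hy, ← cjr_apply hy0, ← map_pow, ← ih,
        cjr_apply]
      simp only [mul_assoc]
  obtain ⟨j1, j2, hlt, e⟩ := Set.Finite.exists_lt_map_eq_of_forall_mem
    (f := fun j : ℕ => y ^ j * η * (y ^ j)⁻¹) (t := (fun e : ℕ => η ^ e) '' Set.Iio m)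
    (fun j => ⟨i ^ j % m, Nat.mod_lt _ (by omega), by
      rw [hpow]
      exact (pow_eq_pow_mod _ h1).symm⟩) ((Set.finite_Iio m).image _)
  obtain ⟨n, rfl⟩ := Nat.exists_eq_add_of_lt hlt
  have hyn : η * y ^ (n + 1) = y ^ (n + 1) * η := by
    have hj := pow_ne_zero j1 hy0
    have hn := pow_ne_zero (n + 1) hy0
    simp only [add_assoc, pow_add y j1, mul_inv_rev] at e
    have e2 : η = y ^ (n + 1) * η * (y ^ (n + 1))⁻¹ := by
      apply mul_left_cancel₀ hj
      apply mul_right_cancel₀ (inv_ne_zero hj)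
      rw [e]
      simp only [mul_assoc]
    calc η * y ^ (n + 1) = y ^ (n + 1) * η * (y ^ (n + 1))⁻¹ * y ^ (n + 1) := by rw [← e2]
      _ = _ := by simp [hn]
  have h5 := fd_comm1 (u := η) hy0 (hy ▸ pow_mem (self_mem_bic η) i) (n := n + 1) (by omega) hyn hN
    (rad_K hrad) (Or.inr (mul_mem (center_mem_bic η hν) (self_mem_bic η))) (Or.inl rfl) hx
    (by rwa [mem_cent_univ])
  have hν0 : ν ≠ 0 := left_ne_zero_of_mul (SN.ne_zero hx)
  rw [← mul_assoc, mem_center.1 hν y, mul_assoc, mul_assoc] at h5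
  apply hi
  rw [hy, mul_left_cancel₀ hν0 h5, mul_assoc, mul_inv_cancel₀ hy0, mul_one]

lemma exists_norm {a : D} {m : ℕ} (hm : 1 ≤ m) (h : a ^ m ∈ Subring.center D) :
    ∃ ν : Subring.center D,
      (ν : D) ^ m = (a ^ m) ^ (minpoly (Subring.center D) a).natDegree := by
  have hint := integral_of_pow hm h
  set g := minpoly (Subring.center D) a with hg
  let pb := AdjoinRoot.powerBasis (minpoly.ne_zero hint)
  have := pb.finite
  have h1 : AdjoinRoot.root g ^ m = algebraMap (Subring.center D) _ ⟨a ^ m, h⟩ := by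
    have h2 : aeval (AdjoinRoot.root g) (X ^ m - C (⟨a ^ m, h⟩ : Subring.center D)) = 0 := by
      rw [AdjoinRoot.aeval_eq, AdjoinRoot.mk_eq_zero, hg, minpoly.dvd_iff, map_sub, map_pow,
        aeval_X, aeval_C]
      exact sub_self _
    rwa [map_sub, map_pow, aeval_X, aeval_C, sub_eq_zero] at h2
  have h3 := congrArg (Algebra.norm (Subring.center D)) h1
  rw [map_pow, Algebra.norm_algebraMap, pb.finrank, AdjoinRoot.powerBasis_dim] at h3
  exact ⟨_, by simpa using congrArg Subtype.val h3⟩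

/-- the minimal polynomial of a noncentral element of `N` -/
theorem minpoly_eq {N : Subgroup Dˣ} (hN : N.IsSubnormal)
    (hrad : ∀ x ∈ SN N, ∃ m : ℕ, 1 ≤ m ∧ x ^ m ∈ Subring.center D) {a : D} (ha : a ∈ SN N)
    (hc : a ∉ Subring.center D) : ∃ m : ℕ, 2 ≤ m ∧ (m : D) ≠ 0 ∧
      ∃ h : a ^ m ∈ Subring.center D, X ^ m - C ⟨a ^ m, h⟩ = minpoly (Subring.center D) a := by
  classical
  have hex := hrad a ha
  obtain ⟨hm, h⟩ := Nat.find_spec hex
  have hmin : ∀ k, 1 ≤ k → a ^ k ∈ Subring.center D → Nat.find hex ≤ k :=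
    fun k h1 h2 => Nat.find_min' hex ⟨h1, h2⟩
  generalize Nat.find hex = m at hm h hmin
  have ha0 := SN.ne_zero ha
  have hm0 : (m : D) ≠ 0 := by
    intro h0
    obtain ⟨p, hp⟩ := CharP.exists D
    obtain ⟨c, rfl⟩ := (CharP.cast_eq_zero_iff D p m).1 h0
    have hc : 1 ≤ c := Nat.pos_of_mul_pos_left hm
    have hpr : p.Prime := (CharP.char_is_prime_or_zero D p).resolve_right (by
      rintro rfl
      simp at hm)
    have := hmin c hc (rad_char hN hrad (SN.pow ha c) hpr (CharP.cast_eq_zero D p)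
      (by rwa [← pow_mul, mul_comm]))
    have := hpr.one_lt
    nlinarith
  have hint := integral_of_pow hm h
  obtain ⟨ν, hν⟩ := exists_norm hm h
  set g := minpoly (Subring.center D) a with hg
  have hν0 : (ν : D) ≠ 0 := by
    intro h0
    rw [h0, zero_pow (by omega)] at hν
    exact pow_ne_zero _ (pow_ne_zero _ ha0) hν.symm
  have hk : a ^ g.natDegree ∈ Subring.center D := by
    have e : (ν : D) * ((ν : D)⁻¹ * a ^ g.natDegree) = a ^ g.natDegree := by simp [hν0]
    have := scalar_root hN hrad (η := (ν : D)⁻¹ * a ^ g.natDegree) ν.2 (e.symm ▸ SN.pow ha _) hm0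
      (by
        have hcm : Commute (ν : D)⁻¹ (a ^ g.natDegree) :=
          (mem_center.1 (center_inv ν.2) _).symm
        rw [hcm.mul_pow, inv_pow, hν, ← pow_mul, ← pow_mul, mul_comm m,
          inv_mul_cancel₀ (pow_ne_zero _ ha0)])
    rwa [e] at this
  have hle := hmin _ (minpoly.natDegree_pos hint) hk
  have hdvd : g ∣ X ^ m - C ⟨a ^ m, h⟩ := by
    rw [hg, minpoly.dvd_iff, map_sub, map_pow, aeval_X, aeval_C]
    exact sub_self _
  have heq : X ^ m - C ⟨a ^ m, h⟩ = g := eq_of_monic_of_dvd_of_natDegree_le (minpoly.monic hint)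
    (monic_X_pow_sub_C _ (by omega)) hdvd (by rwa [natDegree_X_pow_sub_C])
  have hm1 : m ≠ 1 := by
    rintro rfl
    exact hc (by simpa using h)
  exact ⟨m, by omega, hm0, h, heq⟩

/-- noncentral elements of `N` are sums of additive commutators -/
theorem mem_Cm {N : Subgroup Dˣ} (hN : N.IsSubnormal)
    (hrad : ∀ x ∈ SN N, ∃ m : ℕ, 1 ≤ m ∧ x ^ m ∈ Subring.center D) {a : D} (ha : a ∈ SN N)
    (hc : a ∉ Subring.center D) : a ∈ Cm D := by
  obtain ⟨m, hm, hm0, h, heq⟩ := minpoly_eq hN hrad ha hc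
  have hw := (wedd (integral_of_pow (by omega) h)).1
  set g := minpoly (Subring.center D) a
  have hnc : g.nextCoeff = 0 := by
    rw [← heq, nextCoeff_of_natDegree_pos (by rw [natDegree_X_pow_sub_C]; omega),
      natDegree_X_pow_sub_C, coeff_sub, coeff_X_pow, coeff_C, if_neg (by omega),
      if_neg (by omega), sub_zero]
  have hd : g.natDegree = m := by rw [← heq, natDegree_X_pow_sub_C]
  rw [hnc, hd] at hw
  have := (Cm D).smul_mem ⟨(m : D)⁻¹, center_inv (natCast_mem _ m)⟩ hw
  simpa [Subring.smul_def, ← mul_assoc, hm0] using this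

end Pool.Agent.Work.MP_b4cb8e_al
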